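import Pool.Agent.Helper4.T7.StD

/-!
# Project T7, module Uni: a symbol with zero plane functions is constant

Adapted from `Pool/Agent/Helper77/TK/M_Uni.lean`.
-/

set_option autoImplicit false

namespace Pool.Agent.Helper42.T7

open Pool.Agent.Helper4.T7
open Pool.Agent.Helper28.T7 (HTy SymH)
open Pool.Agent.Helper14.CV (Homog EqC act Tl StFar StFex)

private lemma un1 (n : ℕ) {a b c d : ℤ} (h : HTy a b (5 * c) d) :
    IsUnit (a : ZMod (5 ^ n)) ∧ IsUnit (d : ZMod (5 ^ n)) := by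
  have key : ∀ k : ℤ, IsCoprime k 5 → IsUnit (k : ZMod (5 ^ n)) := by
    intro k hk
    rw [ZMod.coe_int_isUnit_iff_isCoprime]
    push_cast
    exact IsCoprime.pow_left hk.symm
  rcases h with ⟨h, _⟩ | ⟨h, _⟩
  · exact ⟨key a ⟨d, -(b * c), by linear_combination h⟩, key d ⟨a, -(b * c), by linear_combination h⟩⟩
  · exact ⟨key a ⟨3 * d, -(4 + 3 * b * c), by linear_combination 3 * h⟩,
      key d ⟨3 * a, -(4 + 3 * b * c), by linear_combination 3 * h⟩⟩

private lemma dvd5' {n : ℤ} : (5 : ℤ) ∣ n ↔ (n : ZMod 5) = 0 :=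
  (ZMod.intCast_zmod_eq_zero_iff_dvd n 5).symm

private lemma dvd7' {n : ℤ} : (7 : ℤ) ∣ n ↔ (n : ZMod 7) = 0 :=
  (ZMod.intCast_zmod_eq_zero_iff_dvd n 7).symm

private lemma cls6 : ∀ r s : ZMod 5,
    r = 0 ∨ s = 0 ∨ r - s = 0 ∨ r + s = 0 ∨ r - 2 * s = 0 ∨ r - 3 * s = 0 := by decide

private lemma cls8 : ∀ r s : ZMod 7,
    r = 0 ∨ s = 0 ∨ r + s = 0 ∨ r - s = 0 ∨ r - 2 * s = 0 ∨ r - 3 * s = 0 ∨ r - 4 * s = 0 ∨
      r - 5 * s = 0 := by decide

private lemma nz {a b c d : ℤ} (h : a * d - b * c ≠ 0) (x y : ℤ) (hxy : x ≠ 0 ∨ y ≠ 0) :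
    a * x + b * y ≠ 0 ∨ c * x + d * y ≠ 0 := by
  by_contra hcon
  push Not at hcon
  obtain ⟨h1, h2⟩ := hcon
  have e1 : (a * d - b * c) * x = 0 := by linear_combination d * h1 - b * h2
  have e2 : (a * d - b * c) * y = 0 := by linear_combination a * h2 - c * h1
  rcases hxy with hx | hy
  · exact hx ((mul_eq_zero.1 e1).resolve_left h)
  · exact hy ((mul_eq_zero.1 e2).resolve_left h)

section

variable {R : Type} [AddCommGroup R] {G : ℤ → ℤ → R}

private lemma sc (hG : Homog G) {p t : ℤ} (hn : p ≠ 0 ∨ t ≠ 0) (k P T : ℤ) (hk : k ≠ 0)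
    (h1 : P = k * p) (h2 : T = k * t) : G P T = G p t := by
  rw [h1, h2]
  exact hG k p t hk hn

/-- The five paths. -/
private lemma bs (he : TEdg) {r s : ℕ} (hG : SymH 5 r (s + 1) G)
    (hz : ∀ i, (pfQ G i : ZMod (5 ^ r) → ZMod (5 ^ s) → R) = 0) (a b c d : ℤ) (h : HTy a b (5 * c) d) :
    G a (5 * c) = G b d ∧ G (2 * a + 7 * b) (10 * c + 7 * d) = G b d ∧
      G (a + 3 * b) (5 * c + 3 * d) = G (2 * a + 7 * b) (10 * c + 7 * d) ∧
      G (a + 2 * b) (5 * c + 2 * d) = G (3 * a + 7 * b) (15 * c + 7 * d) ∧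
      G (2 * a + 3 * b) (10 * c + 3 * d) = G (4 * a + 7 * b) (20 * c + 7 * d) := by
  have ha : IsUnit (a : ZMod (5 ^ r)) := (un1 r h).1
  have hd : IsUnit (d : ZMod (5 ^ s)) := (un1 s h).2
  set X : ZMod (5 ^ r) := (b : ZMod (5 ^ r)) * (a : ZMod (5 ^ r))⁻¹ with hX
  set Y : ZMod (5 ^ s) := (c : ZMod (5 ^ s)) * (d : ZMod (5 ^ s))⁻¹ with hY
  have hp : PlQ a b c d X Y := by
    refine ⟨h, ?_, ?_⟩
    · rw [hX, mul_assoc, ZMod.inv_mul_of_unit _ ha, mul_one]
    · rw [hY, mul_assoc, ZMod.inv_mul_of_unit _ hd, mul_one]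
  have main : ∀ u1 u2 v1 v2 : ℤ, (u1 ≠ 0 ∨ u2 ≠ 0) → (v1 ≠ 0 ∨ v2 ≠ 0) →
      edgeQ u1 u2 v1 v2 G X Y = 0 →
      ∀ A B C D : ℤ, A = a * u1 + b * u2 → B = 5 * c * u1 + d * u2 → C = a * v1 + b * v2 →
        D = 5 * c * v1 + d * v2 → G A B = G C D := by
    intro u1 u2 v1 v2 hu hv hz A B C D h1 h2 h3 h4
    have k := he R _ r s G hG u1 u2 v1 v2 hu hv _ _ a b c d hp
    rw [hz] at k
    rw [h1, h2, h3, h4]
    exact sub_eq_zero.1 k.symm
  have z0 : edgeQ 1 0 0 1 G X Y = 0 := congrFun (congrFun (hz 0) X) Y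
  have z1 : edgeQ 2 7 0 1 G X Y = 0 := congrFun (congrFun (hz 1) X) Y
  have z2 : edgeQ 1 3 2 7 G X Y = 0 := congrFun (congrFun (hz 2) X) Y
  have z3 : edgeQ 1 2 3 7 G X Y = 0 := congrFun (congrFun (hz 3) X) Y
  have z4 : edgeQ 2 3 4 7 G X Y = 0 := congrFun (congrFun (hz 4) X) Y
  refine ⟨?_, ?_, ?_, ?_, ?_⟩
  · exact main 1 0 0 1 (Or.inl (by norm_num)) (Or.inr (by norm_num)) z0 _ _ _ _
      (by ring) (by ring) (by ring) (by ring)
  · exact main 2 7 0 1 (Or.inl (by norm_num)) (Or.inr (by norm_num)) z1 _ _ _ _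
      (by ring) (by ring) (by ring) (by ring)
  · exact main 1 3 2 7 (Or.inl (by norm_num)) (Or.inr (by norm_num)) z2 _ _ _ _
      (by ring) (by ring) (by ring) (by ring)
  · exact main 1 2 3 7 (Or.inl (by norm_num)) (Or.inr (by norm_num)) z3 _ _ _ _
      (by ring) (by ring) (by ring) (by ring)
  · exact main 2 3 4 7 (Or.inl (by norm_num)) (Or.inr (by norm_num)) z4 _ _ _ _
      (by ring) (by ring) (by ring) (by ring)

/-- The vertices of the polygon. -/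
private lemma pol (he : TEdg) {r s : ℕ} (hG : SymH 5 r (s + 1) G)
    (hz : ∀ i, (pfQ G i : ZMod (5 ^ r) → ZMod (5 ^ s) → R) = 0) (a b c d : ℤ) (h : HTy a b (5 * c) d) :
    (G a (5 * c) = G b d ∧ G (2 * a + 7 * b) (10 * c + 7 * d) = G b d ∧
      G (a + 3 * b) (5 * c + 3 * d) = G b d ∧ G (3 * a + 7 * b) (15 * c + 7 * d) = G b d ∧
      G (a + 2 * b) (5 * c + 2 * d) = G b d) ∧
    G (4 * a + 7 * b) (20 * c + 7 * d) = G b d ∧ G (2 * a + 3 * b) (10 * c + 3 * d) = G b d ∧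
    G (5 * a + 7 * b) (25 * c + 7 * d) = G b d ∧ G (a + b) (5 * c + d) = G b d := by
  have hdet : a * d - b * (5 * c) ≠ 0 := h.det_ne
  obtain ⟨p0, p1, p2, p3, p4⟩ := bs he hG hz a b c d h
  rw [p1] at p2
  -- `T`
  have q1 : G (a + b) (5 * c + d) = G b d := by
    have hh : HTy a (a + b) (5 * c) (5 * c + d) := by
      rcases h with ⟨h, h7⟩ | ⟨h, ha, hc, hd⟩
      · exact Or.inl ⟨by linear_combination h, h7⟩
      · exact Or.inr ⟨by linear_combination h, ha, hc, dvd_add hc hd⟩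
    have k := (bs he hG hz a (a + b) c (5 * c + d) hh).1
    rw [← k, p0]
  -- `δ1`
  have q2 : G (3 * a + 7 * b) (15 * c + 7 * d) = G b d := by
    have n1 : a + 3 * b ≠ 0 ∨ 5 * c + 3 * d ≠ 0 := by
      have := nz hdet 1 3 (Or.inl one_ne_zero)
      rwa [show a * 1 + b * 3 = a + 3 * b by ring, show 5 * c * 1 + d * 3 = 5 * c + 3 * d by ring] at this
    rw [← p2]
    rcases h with ⟨h, h7⟩ | ⟨h, ha, hc, hd⟩
    · obtain ⟨m, hm⟩ := h7
      have hh : HTy (14 * a + 35 * b) (-3 * a - 7 * b) (5 * (14 * c + 7 * d)) (-15 * c - 7 * d) :=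
        Or.inr ⟨by linear_combination 7 * h, ⟨2 * a + 5 * b, by ring⟩, ⟨5 * (2 * c + d), by ring⟩,
          ⟨-3 * m - d, by linear_combination -3 * hm⟩⟩
      have k := (bs he hG hz _ _ _ _ hh).2.1
      have n2 : 3 * a + 7 * b ≠ 0 ∨ 15 * c + 7 * d ≠ 0 := by
        have := nz hdet 3 7 (Or.inl (by norm_num))
        rwa [show a * 3 + b * 7 = 3 * a + 7 * b by ring,
          show 5 * c * 3 + d * 7 = 15 * c + 7 * d by ring] at this
      exact ((sc hG.1 n2 (-1) _ _ (by norm_num) (by ring) (by ring)).symm.trans k.symm).trans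
        (sc hG.1 n1 7 _ _ (by norm_num) (by ring) (by ring))
    · obtain ⟨a', rfl⟩ := ha
      obtain ⟨m, hm⟩ := hc
      obtain ⟨d', rfl⟩ := hd
      obtain ⟨c', rfl⟩ : ∃ c', c = 7 * c' := ⟨3 * m - 2 * c, by linear_combination 3 * hm⟩
      have hh : HTy (2 * (7 * a') + 5 * b) (-(3 * a' + b)) (5 * (2 * (7 * c') + 7 * d'))
          (-(15 * c' + 7 * d')) := by
        refine Or.inl ⟨?_, ⟨5 * (2 * c' + d'), by ring⟩⟩
        have h1 : 7 * ((2 * (7 * a') + 5 * b) * (-(15 * c' + 7 * d')) -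
            (-(3 * a' + b)) * (5 * (2 * (7 * c') + 7 * d'))) = 7 * 1 := by linear_combination h
        exact mul_left_cancel₀ (by norm_num) h1
      have k := (bs he hG hz _ _ _ _ hh).2.1
      have n3 : (-(3 * a' + b) : ℤ) ≠ 0 ∨ (-(15 * c' + 7 * d') : ℤ) ≠ 0 := by
        have := nz (hh.det_ne) 0 1 (Or.inr one_ne_zero)
        rwa [mul_zero, mul_zero, zero_add, zero_add, mul_one, mul_one] at this
      have e1 : 2 * (2 * (7 * a') + 5 * b) + 7 * -(3 * a' + b) = 7 * a' + 3 * b := by ring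
      have e2 : 10 * (2 * (7 * c') + 7 * d') + 7 * -(15 * c' + 7 * d') = 5 * (7 * c') + 3 * (7 * d') := by
        ring
      rw [e1, e2] at k
      rw [k]
      exact sc hG.1 n3 (-7) _ _ (by norm_num) (by ring) (by ring)
  rw [q2] at p3
  -- `δ2`
  have n4 : 4 * a + 7 * b ≠ 0 ∨ 20 * c + 7 * d ≠ 0 := by
    have := nz hdet 4 7 (Or.inl (by norm_num))
    rwa [show a * 4 + b * 7 = 4 * a + 7 * b by ring,
      show 5 * c * 4 + d * 7 = 20 * c + 7 * d by ring] at this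
  have q3 : G (4 * a + 7 * b) (20 * c + 7 * d) = G b d := by
    have hh : HTy (19 * a + 35 * b) (-6 * a - 11 * b) (5 * (19 * c + 7 * d)) (-30 * c - 11 * d) := by
      rcases h with ⟨h, m, hm⟩ | ⟨h, ⟨a', ha⟩, ⟨m, hm⟩, ⟨d', hd⟩⟩
      · exact Or.inl ⟨by linear_combination h, ⟨19 * m + 5 * d, by linear_combination 19 * hm⟩⟩
      · exact Or.inr ⟨by linear_combination h, ⟨19 * a' + 5 * b, by linear_combination 19 * ha⟩,
          ⟨19 * m + 5 * d, by linear_combination 19 * hm⟩,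
          ⟨-6 * m - 11 * d', by linear_combination -6 * hm - 11 * hd⟩⟩
    have k := (bs he hG hz _ _ _ _ hh).2.2.1
    have e1 : 19 * a + 35 * b + 3 * (-6 * a - 11 * b) = a + 2 * b := by ring
    have e2 : 5 * (19 * c + 7 * d) + 3 * (-30 * c - 11 * d) = 5 * c + 2 * d := by ring
    rw [e1, e2, p3] at k
    exact (sc hG.1 n4 (-1) _ _ (by norm_num) (by ring) (by ring)).symm.trans k.symm
  rw [q3] at p4
  -- `δ3`
  have n5 : 5 * a + 7 * b ≠ 0 ∨ 25 * c + 7 * d ≠ 0 := by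
    have := nz hdet 5 7 (Or.inl (by norm_num))
    rwa [show a * 5 + b * 7 = 5 * a + 7 * b by ring,
      show 5 * c * 5 + d * 7 = 25 * c + 7 * d by ring] at this
  have q4 : G (5 * a + 7 * b) (25 * c + 7 * d) = G b d := by
    have hh : HTy (24 * a + 35 * b) (-11 * a - 16 * b) (5 * (24 * c + 7 * d)) (-55 * c - 16 * d) := by
      rcases h with ⟨h, m, hm⟩ | ⟨h, ⟨a', ha⟩, ⟨m, hm⟩, ⟨d', hd⟩⟩
      · exact Or.inl ⟨by linear_combination h, ⟨24 * m + 5 * d, by linear_combination 24 * hm⟩⟩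
      · exact Or.inr ⟨by linear_combination h, ⟨24 * a' + 5 * b, by linear_combination 24 * ha⟩,
          ⟨24 * m + 5 * d, by linear_combination 24 * hm⟩,
          ⟨-11 * m - 16 * d', by linear_combination -11 * hm - 16 * hd⟩⟩
    have k := (bs he hG hz _ _ _ _ hh).2.2.2.1
    have e1 : 24 * a + 35 * b + 2 * (-11 * a - 16 * b) = 2 * a + 3 * b := by ring
    have e2 : 5 * (24 * c + 7 * d) + 2 * (-55 * c - 16 * d) = 10 * c + 3 * d := by ring
    rw [e1, e2, p4] at k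
    exact (sc hG.1 n5 (-1) _ _ (by norm_num) (by ring) (by ring)).symm.trans k.symm
  exact ⟨⟨p0, p1, p2, q2, p3⟩, q3, p4, q4, q1⟩

/-- Matrices of determinant one with `7 ∣ C`. -/
private lemma one (he : TEdg) {r s : ℕ} (hG : SymH 5 r (s + 1) G)
    (hz : ∀ i, (pfQ G i : ZMod (5 ^ r) → ZMod (5 ^ s) → R) = 0) (A B C D : ℤ)
    (h : A * D - B * C = 1) (h7 : (7 : ℤ) ∣ C) : G A C = G B D ∧ G (A + 2 * B) (C + 2 * D) = G B D := by
  have hdet : A * D - B * C ≠ 0 := by rw [h]; exact one_ne_zero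
  have n1 : A ≠ 0 ∨ C ≠ 0 := by
    have := nz hdet 1 0 (Or.inl one_ne_zero)
    simpa using this
  have n2 : B ≠ 0 ∨ D ≠ 0 := by
    have := nz hdet 0 1 (Or.inr one_ne_zero)
    simpa using this
  have n3 : A + 2 * B ≠ 0 ∨ C + 2 * D ≠ 0 := by
    have := nz hdet 1 2 (Or.inl one_ne_zero)
    rwa [show A * 1 + B * 2 = A + 2 * B by ring, show C * 1 + D * 2 = C + 2 * D by ring] at this
  obtain ⟨m, hm⟩ := h7
  rcases cls6 (C : ZMod 5) (D : ZMod 5) with e | e | e | e | e | e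
  · obtain ⟨c, rfl⟩ := dvd5'.2 e
    obtain ⟨⟨p0, p1, p2, p3, p4⟩, -⟩ := pol he hG hz A B c D (Or.inl ⟨h, ⟨m, hm⟩⟩)
    exact ⟨p0, p4⟩
  · -- `t = ∞`
    obtain ⟨c, rfl⟩ := dvd5'.2 e
    have hh : HTy (-7 * B) (A + 7 * B) (5 * (-7 * c)) (C + 7 * (5 * c)) :=
      Or.inr ⟨by linear_combination 7 * h, ⟨-B, by ring⟩, ⟨-5 * c, by ring⟩,
        ⟨m + 5 * c, by linear_combination hm⟩⟩
    obtain ⟨⟨p0, p1, p2, p3, p4⟩, q3, q4, q5, q1⟩ := pol he hG hz _ _ _ _ hh
    -- `1`: g∞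
    rw [show -7 * B + (A + 7 * B) = A by ring,
      show 5 * (-7 * c) + (C + 7 * (5 * c)) = C by ring] at q1
    -- `∞`: g0
    have g0 := (sc hG.1 n2 (-7) _ _ (by norm_num) (by ring) (by ring)).symm.trans p0
    -- `5/7`: g½
    have gh := (sc hG.1 n3 7 _ _ (by norm_num) (by ring) (by ring)).symm.trans q5
    exact ⟨q1.trans g0.symm, gh.trans g0.symm⟩
  · -- `t = 1`
    have : (5 : ℤ) ∣ C - D := dvd5'.2 (by push_cast; exact e)
    obtain ⟨c, hc⟩ := this
    have hh : HTy (-3 * A - 7 * B) (A + 2 * B) (5 * (-3 * c - 2 * D)) (C + 2 * D) :=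
      Or.inl ⟨by linear_combination h - 3 * (A + 2 * B) * hc,
        ⟨-3 * m - D, by linear_combination -3 * hm + 3 * hc⟩⟩
    obtain ⟨⟨p0, p1, p2, p3, p4⟩, -⟩ := pol he hG hz _ _ _ _ hh
    -- `2/7`: g∞
    rw [show 2 * (-3 * A - 7 * B) + 7 * (A + 2 * B) = A by ring,
      show 10 * (-3 * c - 2 * D) + 7 * (C + 2 * D) = C by linear_combination 6 * hc] at p1
    -- `1/3`: g0
    have g0 := (sc hG.1 n2 (-1) _ _ (by norm_num) (by ring) (by linear_combination 3 * hc)).symm.trans p2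
    exact ⟨p1.trans g0.symm, g0.symm⟩
  · -- `t = 4`
    have : (5 : ℤ) ∣ C + D := dvd5'.2 (by push_cast; exact e)
    obtain ⟨c, hc⟩ := this
    have hh : HTy (-2 * A - 7 * B) (A + 3 * B) (5 * (-2 * c - D)) (C + 3 * D) :=
      Or.inl ⟨by linear_combination h - 2 * (A + 3 * B) * hc,
        ⟨-2 * m - D, by linear_combination -2 * hm + 2 * hc⟩⟩
    obtain ⟨⟨p0, p1, p2, p3, p4⟩, -⟩ := pol he hG hz _ _ _ _ hh
    -- `3/7`: g∞
    rw [show 3 * (-2 * A - 7 * B) + 7 * (A + 3 * B) = A by ring,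
      show 15 * (-2 * c - D) + 7 * (C + 3 * D) = C by linear_combination 6 * hc] at p3
    -- `1/2`: g0
    have g0 := (sc hG.1 n2 (-1) _ _ (by norm_num) (by ring) (by linear_combination 2 * hc)).symm.trans p4
    -- `1/3`: g½
    rw [show -2 * A - 7 * B + 3 * (A + 3 * B) = A + 2 * B by ring,
      show 5 * (-2 * c - D) + 3 * (C + 3 * D) = C + 2 * D by linear_combination 2 * hc] at p2
    exact ⟨p3.trans g0.symm, p2.trans g0.symm⟩
  · -- `t = 2`
    have : (5 : ℤ) ∣ C - 2 * D := dvd5'.2 (by push_cast; exact e)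
    obtain ⟨c, hc⟩ := this
    have hh : HTy (-7 * A - 21 * B) (5 * A + 14 * B) (5 * (-7 * c - 7 * D)) (5 * C + 14 * D) :=
      Or.inr ⟨by linear_combination 7 * h - 7 * (5 * A + 14 * B) * hc, ⟨-A - 3 * B, by ring⟩,
        ⟨5 * (-c - D), by ring⟩, ⟨5 * m + 2 * D, by linear_combination 5 * hm⟩⟩
    obtain ⟨⟨p0, p1, p2, p3, p4⟩, q3, q4, q5, q1⟩ := pol he hG hz _ _ _ _ hh
    -- `2/3`: g∞
    rw [show 2 * (-7 * A - 21 * B) + 3 * (5 * A + 14 * B) = A by ring,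
      show 10 * (-7 * c - 7 * D) + 3 * (5 * C + 14 * D) = C by linear_combination 14 * hc] at q4
    -- `5/7`: g0
    have g0 := (sc hG.1 n2 (-7) _ _ (by norm_num) (by ring) (by linear_combination 35 * hc)).symm.trans q5
    -- `4/7`: g½
    have gh := (sc hG.1 n3 7 _ _ (by norm_num) (by ring) (by linear_combination 28 * hc)).symm.trans q3
    exact ⟨q4.trans g0.symm, gh.trans g0.symm⟩
  · -- `t = 3`
    have : (5 : ℤ) ∣ C - 3 * D := dvd5'.2 (by push_cast; exact e)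
    obtain ⟨c, hc⟩ := this
    have hh : HTy (7 * A + 14 * B) (-4 * A - 7 * B) (5 * (7 * c + 7 * D)) (-4 * C - 7 * D) :=
      Or.inr ⟨by linear_combination 7 * h - 7 * (4 * A + 7 * B) * hc, ⟨A + 2 * B, by ring⟩,
        ⟨5 * (c + D), by ring⟩, ⟨-4 * m - D, by linear_combination -4 * hm⟩⟩
    obtain ⟨⟨p0, p1, p2, p3, p4⟩, q3, q4, q5, q1⟩ := pol he hG hz _ _ _ _ hh
    -- `1/2`: g∞
    have gi := (sc hG.1 n1 (-1) _ _ (by norm_num) (by ring) (by linear_combination -7 * hc)).symm.trans p4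
    -- `4/7`: g0
    have g0 := (sc hG.1 n2 7 _ _ (by norm_num) (by ring) (by linear_combination -28 * hc)).symm.trans q3
    -- `∞`: g½
    have gh := (sc hG.1 n3 7 _ _ (by norm_num) (by ring) (by linear_combination -7 * hc)).symm.trans p0
    exact ⟨gi.trans g0.symm, gh.trans g0.symm⟩

end

/-- UNI. -/
theorem hUni (he : TEdg) (hp : TPlQ) (hf : StFar) : TUni := by
  have _ := hp
  intro R _ r s G hG hz
  have S1 := fun A B C D h h7 => one (R := R) (G := G) he (r := r) (s := s) hG hz A B C D h h7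
  have hneg : ∀ p t : ℤ, (p ≠ 0 ∨ t ≠ 0) → G (-p) (-t) = G p t := fun p t n =>
    sc hG.1 n (-1) _ _ (by norm_num) (by ring) (by ring)
  -- classes `2`, `4`
  have c2 : ∀ p q t u : ℤ, p * u - q * t = 1 → (7 : ℤ) ∣ t - 2 * u → G p t = G q u := by
    intro p q t u h h7
    have k := (S1 (p - 2 * q) q (t - 2 * u) u (by linear_combination h) h7).2
    rwa [show p - 2 * q + 2 * q = p by ring, show t - 2 * u + 2 * u = t by ring] at k
  have c4 : ∀ p q t u : ℤ, p * u - q * t = 1 → (7 : ℤ) ∣ t - 4 * u → G p t = G q u := by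
    intro p q t u h h7
    obtain ⟨m, hm⟩ := h7
    have n2 : q ≠ 0 ∨ u ≠ 0 := by
      have hdet : p * u - q * t ≠ 0 := by rw [h]; exact one_ne_zero
      have := nz hdet 0 1 (Or.inr one_ne_zero)
      simpa using this
    -- `h = (p - 4q, q; t - 4u, u)`, `hγ²`, `h (2 1; 7 4)`
    obtain ⟨k1, k2⟩ := S1 (2 * (p - 4 * q) + 7 * q) (-(p - 4 * q) - 3 * q) (2 * (t - 4 * u) + 7 * u)
      (-(t - 4 * u) - 3 * u) (by linear_combination h) ⟨2 * m + u, by linear_combination 2 * hm⟩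
    have k3 := (S1 (2 * (p - 4 * q) + 7 * q) ((p - 4 * q) + 4 * q) (2 * (t - 4 * u) + 7 * u)
      ((t - 4 * u) + 4 * u) (by linear_combination h) ⟨2 * m + u, by linear_combination 2 * hm⟩).1
    rw [show p - 4 * q + 4 * q = p by ring, show t - 4 * u + 4 * u = t by ring] at k3
    rw [show 2 * (p - 4 * q) + 7 * q + 2 * (-(p - 4 * q) - 3 * q) = q by ring,
      show 2 * (t - 4 * u) + 7 * u + 2 * (-(t - 4 * u) - 3 * u) = u by ring] at k2
    rw [← k3, k1, ← k2]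
  refine hf R _ G hG.1 fun p q t u h => ?_
  have h' : p * u - q * t = 1 := by linear_combination h
  have hdet : p * u - q * t ≠ 0 := by rw [h']; exact one_ne_zero
  have n1 : p ≠ 0 ∨ t ≠ 0 := by
    have := nz hdet 1 0 (Or.inl one_ne_zero)
    simpa using this
  rcases cls8 (t : ZMod 7) (u : ZMod 7) with e | e | e | e | e | e | e | e
  · exact (S1 p q t u h' (dvd7'.2 e)).1
  · have k := (S1 q (-p) u (-t) (by linear_combination h') (dvd7'.2 e)).1
    rw [hneg p t n1] at k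
    exact k.symm
  · have h7 : (7 : ℤ) ∣ t + u := dvd7'.2 (by push_cast; exact e)
    have k1 := (S1 (p + q) (-p) (t + u) (-t) (by linear_combination h') h7).1
    have k2 := (S1 (p + q) q (t + u) u (by linear_combination h') h7).1
    rw [hneg p t n1] at k1
    exact k1.symm.trans k2
  · have h7 : (7 : ℤ) ∣ t - u := dvd7'.2 (by push_cast; exact e)
    have k1 := (S1 (p - q) p (t - u) t (by linear_combination h') h7).1
    have k2 := (S1 (p - q) q (t - u) u (by linear_combination h') h7).1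
    exact k1.symm.trans k2
  · exact c2 p q t u h' (dvd7'.2 (by push_cast; exact e))
  · have h7 : (7 : ℤ) ∣ t - 3 * u := dvd7'.2 (by push_cast; exact e)
    obtain ⟨m, hm⟩ := h7
    have k := c2 q (-p) u (-t) (by linear_combination h') ⟨2 * m + u, by linear_combination 2 * hm⟩
    rw [hneg p t n1] at k
    exact k.symm
  · exact c4 p q t u h' (dvd7'.2 (by push_cast; exact e))
  · have h7 : (7 : ℤ) ∣ t - 5 * u := dvd7'.2 (by push_cast; exact e)
    obtain ⟨m, hm⟩ := h7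
    have k := c4 q (-p) u (-t) (by linear_combination h') ⟨4 * m + 3 * u, by linear_combination 4 * hm⟩
    rw [hneg p t n1] at k
    exact k.symm

end Pool.Agent.Helper42.T7
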